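import Mathlib

/-!
# Linear growth in transcendence degree one
-/

set_option autoImplicit false

open Module

namespace Pool.Agent.TH448.N4

open Polynomial

section

variable {F K : Type*} [Field F] [Field K] [Algebra F K]

open Classical in
/-- the span of the elements `z ^ i * f`, `i ≤ n`, `f ∈ T` -/
noncomputable def VV (F : Type*) {K : Type*} [Field F] [Field K] [Algebra F K] (z : K)
    (T : Finset K) (n : ℕ) : Submodule F K :=
  Submodule.span F (((Finset.range (n + 1) ×ˢ T).image fun p => z ^ p.1 * p.2 : Finset K) : Set K)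

theorem VV_mem {z : K} {T : Finset K} {n i : ℕ} {f : K} (hi : i ≤ n) (hf : f ∈ T) :
    z ^ i * f ∈ VV F z T n := by
  classical
  apply Submodule.subset_span
  rw [Finset.mem_coe, Finset.mem_image]
  exact ⟨(i, f), Finset.mem_product.2 ⟨Finset.mem_range.2 (by omega), hf⟩, rfl⟩

instance VV_fin (z : K) (T : Finset K) (n : ℕ) : FiniteDimensional F (VV F z T n) := by
  unfold VV
  exact FiniteDimensional.span_finset F _

theorem VV_finrank (z : K) (T : Finset K) (n : ℕ) :
    finrank F (VV F z T n) ≤ (n + 1) * T.card := by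
  classical
  unfold VV
  refine (finrank_span_finset_le_card _).trans (Finset.card_image_le.trans ?_)
  rw [Finset.card_product, Finset.card_range]

/-- polynomials in `z` of bounded degree times elements of `T` -/
theorem VV_poly {z : K} {T : Finset K} {D i n : ℕ} {f : K} (p : F[X]) (hp : p.natDegree ≤ D)
    (hf : f ∈ T) (hi : i + D ≤ n) : z ^ i * (aeval z p * f) ∈ VV F z T n := by
  rw [aeval_eq_sum_range, Finset.sum_mul, Finset.mul_sum]
  apply Submodule.sum_mem
  intro j hj
  rw [Finset.mem_range] at hj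
  have h1 : z ^ i * (p.coeff j • z ^ j * f) = p.coeff j • (z ^ (i + j) * f) := by
    rw [Algebra.smul_def, Algebra.smul_def, pow_add]
    ring
  rw [h1]
  exact Submodule.smul_mem _ _ (VV_mem (by omega) hf)

/-- one multiplication -/
theorem VV_step {z q : K} {S T : Finset K} {D : ℕ}
    (h : ∀ w ∈ S, ∀ e ∈ T, ∃ p : K → F[X], (∀ f, (p f).natDegree ≤ D) ∧
      q * (w * e) = ∑ f ∈ T, aeval z (p f) * f) (n : ℕ) {w v : K}
    (hw : w ∈ Submodule.span F (S : Set K)) (hv : v ∈ VV F z T n) :
    q * (w * v) ∈ VV F z T (n + D) := by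
  classical
  induction hw using Submodule.span_induction with
  | mem w hw =>
    unfold VV at hv
    induction hv using Submodule.span_induction with
    | mem v hv =>
      rw [Finset.mem_coe, Finset.mem_image] at hv
      obtain ⟨⟨i, e⟩, hie, rfl⟩ := hv
      rw [Finset.mem_product, Finset.mem_range] at hie
      obtain ⟨p, hp1, hp2⟩ := h w hw e hie.2
      have h1 : q * (w * (z ^ i * e)) = z ^ i * (q * (w * e)) := by ring
      simp only
      rw [h1, hp2, Finset.mul_sum]
      apply Submodule.sum_mem
      intro f hf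
      exact VV_poly (p f) (hp1 f) hf (by have := hie.1; simp only at this; omega)
    | zero => simp
    | add x y _ _ hx hy =>
      rw [mul_add, mul_add]
      exact Submodule.add_mem _ hx hy
    | smul a x _ hx =>
      rw [mul_smul_comm, mul_smul_comm]
      exact Submodule.smul_mem _ _ hx
  | zero => simp
  | add x y _ _ hx hy =>
    rw [add_mul, mul_add]
    exact Submodule.add_mem _ hx hy
  | smul a x _ hx =>
    rw [smul_mul_assoc, mul_smul_comm]
    exact Submodule.smul_mem _ _ hx

theorem VV_pow {z q : K} {S T : Finset K} {D : ℕ} (h1T : (1 : K) ∈ T)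
    (h : ∀ w ∈ S, ∀ e ∈ T, ∃ p : K → F[X], (∀ f, (p f).natDegree ≤ D) ∧
      q * (w * e) = ∑ f ∈ T, aeval z (p f) * f) (t : ℕ) {x : K}
    (hx : x ∈ (Submodule.span F (S : Set K) ^ t : Submodule F K)) :
    q ^ t * x ∈ VV F z T (D * t) := by
  induction t generalizing x with
  | zero =>
    rw [pow_zero, Submodule.mem_one] at hx
    obtain ⟨a, rfl⟩ := hx
    have h2 : (z ^ 0 * 1 : K) ∈ VV F z T (D * 0) := VV_mem (by omega) h1T
    have h3 := Submodule.smul_mem (VV F z T (D * 0)) a h2
    rw [Algebra.smul_def] at h3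
    simpa using h3
  | succ t ih =>
    rw [pow_succ'] at hx
    induction hx using Submodule.mul_induction_on' with
    | mem_mul_mem w hw y hy =>
      have h2 := VV_step h (D * t) hw (ih hy)
      have h3 : q ^ (t + 1) * (w * y) = q * (w * (q ^ t * y)) := by ring
      rw [h3]
      exact h2
    | add a _ b _ ha hb =>
      rw [mul_add (q ^ (t + 1))]
      exact Submodule.add_mem _ ha hb

end

theorem growth_one {F K : Type*} [Field F] [Field K] [Algebra F K] {W : Submodule F K}
    [FiniteDimensional F W] (h1 : (1 : K) ∈ W) {z : K}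
    (halg : ∀ w ∈ W, IsAlgebraic (IntermediateField.adjoin F ({z} : Set K)) w) :
    ∃ C : ℕ, ∀ t : ℕ, finrank F (W ^ t : Submodule F K) ≤ C * (t + 1) := by
  classical
  obtain ⟨S, hS⟩ : W.FG := Module.Finite.iff_fg.1 inferInstance
  have hSW : ∀ w ∈ S, w ∈ W := fun w hw => by
    rw [← hS]
    exact Submodule.subset_span hw
  set E := IntermediateField.adjoin F ({z} : Set K) with hE
  obtain ⟨T0, hT0⟩ : (Algebra.adjoin E (S : Set K)).toSubmodule.FG :=
    fg_adjoin_of_finite S.finite_toSet fun w hw => (halg w (hSW w hw)).isIntegral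
  set T : Finset K := insert 1 T0 with hT
  have hT1 : (1 : K) ∈ T := Finset.mem_insert_self _ _
  have hTM : ∀ e ∈ T, e ∈ Algebra.adjoin E (S : Set K) := by
    intro e he
    rw [hT, Finset.mem_insert] at he
    rcases he with rfl | he
    · exact one_mem _
    · have : e ∈ Submodule.span E (T0 : Set K) := Submodule.subset_span he
      rw [hT0] at this
      exact this
  have hspan : ∀ y ∈ Algebra.adjoin E (S : Set K), y ∈ Submodule.span E (T : Set K) := by
    intro y hy
    have h2 : y ∈ Submodule.span E (T0 : Set K) := by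
      rw [hT0]
      exact hy
    apply Submodule.span_mono _ h2
    rw [hT, Finset.coe_insert]
    exact Set.subset_insert _ _
  -- coefficients
  have hcoef : ∀ w e : K, ∃ a : K → E, w ∈ S → e ∈ T → w * e = ∑ f ∈ T, (a f : K) * f := by
    intro w e
    by_cases hw : w ∈ S
    · by_cases he : e ∈ T
      · have h2 : w * e ∈ Submodule.span E (T : Set K) :=
          hspan _ (mul_mem (Algebra.subset_adjoin hw) (hTM e he))
        obtain ⟨a, _, ha⟩ := Submodule.mem_span_finset.1 h2
        refine ⟨a, fun _ _ => ?_⟩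
        rw [← ha]
        apply Finset.sum_congr rfl
        intro f _
        rw [Algebra.smul_def]
        rfl
      · exact ⟨fun _ => 0, fun _ h => absurd h he⟩
    · exact ⟨fun _ => 0, fun h => absurd h hw⟩
  choose a ha using hcoef
  -- fractions
  have hfrac : ∀ x : E, ∃ r s : F[X], aeval z s ≠ 0 ∧ (x : K) * aeval z s = aeval z r := by
    intro x
    obtain ⟨r, s, hrs⟩ := IntermediateField.mem_adjoin_simple_iff F (x : K) |>.1 x.2
    by_cases h : aeval z s = 0
    · refine ⟨0, 1, by simp, ?_⟩
      rw [hrs, h]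
      simp
    · refine ⟨r, s, h, ?_⟩
      rw [hrs, div_mul_cancel₀ _ h]
  choose nu de hde hnu using hfrac
  set I : Finset (K × K × K) := S ×ˢ (T ×ˢ T) with hI
  set dd : K × K × K → F[X] := fun x => de (a x.1 x.2.1 x.2.2) with hdd
  set Q : F[X] := ∏ x ∈ I, dd x with hQ
  set q : K := aeval z Q with hq
  have hq0 : q ≠ 0 := by
    rw [hq, hQ, map_prod]
    exact Finset.prod_ne_zero_iff.2 fun x _ => hde _
  set pp : K × K × K → F[X] := fun x =>
    if x ∈ I then nu (a x.1 x.2.1 x.2.2) * ∏ y ∈ I.erase x, dd y else 0 with hpp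
  have hppq : ∀ x ∈ I, q * (a x.1 x.2.1 x.2.2 : K) = aeval z (pp x) := by
    intro x hx
    rw [hq, hQ, ← Finset.mul_prod_erase I dd hx, map_mul, hpp]
    simp only [if_pos hx, map_mul]
    rw [← hnu]
    ring
  set D : ℕ := ∑ x ∈ I, (pp x).natDegree with hD
  have hDd : ∀ x, (pp x).natDegree ≤ D := by
    intro x
    by_cases hx : x ∈ I
    · exact Finset.single_le_sum (f := fun x => (pp x).natDegree) (fun _ _ => Nat.zero_le _) hx
    · rw [hpp]
      simp [if_neg hx]
  have hmain : ∀ w ∈ S, ∀ e ∈ T, ∃ p : K → F[X], (∀ f, (p f).natDegree ≤ D) ∧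
      q * (w * e) = ∑ f ∈ T, aeval z (p f) * f := by
    intro w hw e he
    refine ⟨fun f => pp (w, e, f), fun f => hDd _, ?_⟩
    rw [ha w e hw he, Finset.mul_sum]
    apply Finset.sum_congr rfl
    intro f hf
    rw [← hppq (w, e, f) (Finset.mem_product.2 ⟨hw, Finset.mem_product.2 ⟨he, hf⟩⟩)]
    ring
  refine ⟨(D + 1) * T.card, fun t => ?_⟩
  have hinj : Function.Injective (LinearMap.mulLeft F (q ^ t)) := by
    intro x y hxy
    exact mul_left_cancel₀ (pow_ne_zero t hq0) hxy
  have h2 : finrank F (W ^ t : Submodule F K) =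
      finrank F (Submodule.map (LinearMap.mulLeft F (q ^ t)) (W ^ t : Submodule F K)) :=
    (Submodule.equivMapOfInjective _ hinj (W ^ t : Submodule F K)).finrank_eq
  have h3 : Submodule.map (LinearMap.mulLeft F (q ^ t)) (W ^ t : Submodule F K) ≤
      VV F z T (D * t) := by
    rintro _ ⟨x, hx, rfl⟩
    rw [← hS] at hx
    exact VV_pow hT1 hmain t hx
  rw [h2]
  calc _ ≤ finrank F (VV F z T (D * t)) := Submodule.finrank_mono h3
    _ ≤ (D * t + 1) * T.card := VV_finrank z T _
    _ ≤ (D + 1) * T.card * (t + 1) := by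
        have : D * t + 1 ≤ (D + 1) * (t + 1) := by nlinarith
        calc (D * t + 1) * T.card ≤ ((D + 1) * (t + 1)) * T.card := Nat.mul_le_mul_right _ this
          _ = _ := by ring

end Pool.Agent.TH448.N4
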